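import Mathlib
import Pool.Agent.H76.AglB

namespace Pool.Agent.Results.MP_3242d6_co.Full

open Finset Pool.Agent.H76.AglA Pool.Agent.H76.AglB

variable {F : Type} [Field F] [Fintype F] [DecidableEq F]

set_option linter.unusedSectionVars false

/-- The stabilizer of B in AGL(1,F), as a set of maps. -/
def stab (B : Finset F) : Set (F → F) :=
  {σ | (∃ a b : F, a ≠ 0 ∧ σ = fun x => a * x + b) ∧ B.image σ = B}

/-- The group S_{d,H}. -/
def S (d : ℕ) (H : AddSubgroup F) : Set (F → F) :=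
  {σ | ∃ z h : F, z ^ d = 1 ∧ h ∈ H ∧ σ = fun x => z * x + h}

/-- The number of k-subsets whose stabilizer is exactly G. -/
noncomputable def N (G : Set (F → F)) (k : ℕ) : ℕ :=
  Set.ncard {B : Finset F | B.card = k ∧ stab B = G}

def phi (H : Finset F) (x : F) : F := ∏ h ∈ H, (x - h)

theorem phi_zero (H : Finset F) (x : F) : phi H x = 0 ↔ x ∈ H := by
  simp [phi, prod_eq_zero_iff, sub_eq_zero]

theorem prod_map' (C : Finset F) (a b : F) (ha : a ≠ 0) (h : ∀ x ∈ C, a * x + b ∈ C) (f : F → F) :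
    ∏ x ∈ C, f (a * x + b) = ∏ x ∈ C, f x := by
  conv_rhs => rw [← sum_inv C a b ha h]
  rw [prod_image]
  intro x _ y _ hxy
  exact mul_left_cancel₀ ha (add_right_cancel hxy)

theorem phi_mul (H : Finset F) (a : F) (ha : a ≠ 0) (h : ∀ x ∈ H, a * x ∈ H) (x : F) :
    phi H (a * x) = a ^ H.card * phi H x := by
  unfold phi
  rw [← prod_map' H a 0 ha (by simpa using h) (fun u => a * x - u), ← prod_const,
    ← prod_mul_distrib]
  exact prod_congr rfl fun u _ => by ring

theorem phi_shift (H : Finset F) (hT : ∀ s ∈ H, ∀ t ∈ H, s + t ∈ H) (x t : F) (ht : t ∈ H) :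
    phi H (t + x) = phi H x := by
  unfold phi
  rw [← prod_map' H 1 t one_ne_zero (fun u hu => by rw [one_mul]; exact hT _ hu _ ht)
    (fun u => t + x - u)]
  exact prod_congr rfl fun u _ => by ring

open Polynomial in
theorem phi_add (H : Finset F) (h0 : (0 : F) ∈ H) (hT : ∀ s ∈ H, ∀ t ∈ H, s + t ∈ H) (x y : F) :
    phi H (x + y) = phi H x + phi H y := by
  have hpos : 0 < H.card := card_pos.2 ⟨0, h0⟩
  have m1 : (∏ h ∈ H, (X - C (h - y)) : F[X]).Monic :=
    monic_prod_of_monic _ _ fun h _ => monic_X_sub_C _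
  have m2 : (∏ h ∈ H, (X - C h) : F[X]).Monic :=
    monic_prod_of_monic _ _ fun h _ => monic_X_sub_C _
  have d1 : (∏ h ∈ H, (X - C (h - y)) : F[X]).degree = H.card := by
    rw [degree_prod]; simp only [degree_X_sub_C]; simp
  have d2 : (∏ h ∈ H, (X - C h) : F[X]).degree = H.card := by
    rw [degree_prod]; simp only [degree_X_sub_C]; simp
  have d3 := degree_sub_lt (d1.trans d2.symm) m1.ne_zero (m1.leadingCoeff.trans m2.leadingCoeff.symm)
  rw [d1] at d3
  have ev : ∀ u, eval u ((∏ h ∈ H, (X - C (h - y)) : F[X]) - ∏ h ∈ H, (X - C h)) =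
      phi H (u + y) - phi H u := by
    intro u
    simp only [eval_sub, eval_prod, eval_X, eval_C, phi]
    congr 1
    exact prod_congr rfl fun h _ => by ring
  have := eq_of_degrees_lt_of_eval_finset_eq H d3
    (lt_of_le_of_lt (degree_C_le (a := phi H y)) (by exact_mod_cast hpos)) (by
      intro u hu
      rw [ev, eval_C, phi_shift H hT y u hu, (phi_zero H u).2 hu, sub_zero])
  have e := ev x
  rw [this, eval_C] at e
  linear_combination -e

theorem card_pre (h2 : (2 : F) = 0) (H : Finset F) (h0 : (0 : F) ∈ H)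
    (hT : ∀ s ∈ H, ∀ t ∈ H, s + t ∈ H) (C : Finset F) (hC : C ⊆ univ.image (phi H)) :
    (univ.filter fun x => phi H x ∈ C).card = C.card * H.card := by
  rw [card_eq_sum_card_fiberwise (f := phi H) (t := C) (fun x hx => by simpa using hx),
    ← smul_eq_mul, ← sum_const]
  refine sum_congr rfl fun w hw => ?_
  obtain ⟨y, -, rfl⟩ := mem_image.1 (hC hw)
  rw [← card_image_of_injective H (add_left_injective y)]
  congr 1
  ext x
  simp only [mem_filter, mem_univ, true_and, mem_image]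
  constructor
  · rintro ⟨-, h⟩
    refine ⟨x + y, (phi_zero H _).1 ?_, by linear_combination y * h2⟩
    rw [phi_add H h0 hT, h]; linear_combination phi H y * h2
  · rintro ⟨t, ht, rfl⟩
    rw [phi_shift H hT y t ht]
    exact ⟨hw, rfl⟩

theorem mu_card {d : ℕ} (hd : d ∣ Fintype.card F - 1) : (mu F d).card = d := by
  obtain ⟨g, hg⟩ := IsCyclic.exists_ofOrder_eq_natCard (α := Fˣ)
  rw [Nat.card_eq_fintype_card, Fintype.card_units] at hg
  have hpos : 0 < Fintype.card F - 1 := by have := Fintype.one_lt_card (α := F); omega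
  have h1 : IsPrimitiveRoot (g : F) (Fintype.card F - 1) := by
    rw [← hg]; exact IsPrimitiveRoot.coe_units_iff.2 (IsPrimitiveRoot.orderOf g)
  obtain ⟨m, hm⟩ := hd
  have h3 := h1.pow hpos (hm.trans (mul_comm _ _))
  have hd0 : 0 < d := Nat.pos_of_ne_zero (by rintro rfl; omega)
  rw [← h3.card_nthRootsFinset]
  congr 1
  ext x
  simp [mu, Polynomial.mem_nthRootsFinset hd0, h3.card_nthRootsFinset]

theorem result (F : Type) [Field F] [Fintype F] [DecidableEq F] (α : ℕ)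
    (hq : Fintype.card F = 2 ^ α) (d : ℕ) (hd : d ∣ 2 ^ α - 1) (H : AddSubgroup F)
    (hH : ∀ z : F, z ^ d = 1 → (fun x => z * x) '' (H : Set F) = H) (k : ℕ) (h3 : 3 ≤ k)
    (hk : 2 * k ≤ 2 ^ α)
    (hc : k ≡ 0 [MOD d * Nat.card H] ∨ k ≡ Nat.card H [MOD d * Nat.card H])
    (hN : N (S d H) k = 0) : ∃ t : ℕ, k = 2 ^ t := by
  classical
  by_contra hcon
  push Not at hcon
  have hα : α ≠ 0 := by rintro rfl; omega
  have h2 : (2 : F) = 0 := by
    have := FiniteField.cast_card_eq_zero F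
    rw [hq] at this
    push_cast at this
    exact pow_eq_zero_iff hα |>.1 this
  haveI : CharP F 2 := CharTwo.of_one_ne_zero_of_two_eq_zero one_ne_zero h2
  have ho : Odd d := Odd.of_dvd_nat (by
    obtain ⟨β, rfl⟩ := Nat.exists_eq_succ_of_ne_zero hα
    exact ⟨2 ^ β - 1, by have := Nat.one_le_two_pow (n := β); rw [pow_succ]; omega⟩) hd
  have hd0 : 0 < d := ho.pos
  have hm : (mu F d).card = d := mu_card (by rwa [hq])
  obtain ⟨Hf, hHf⟩ : ∃ Hf : Finset F, Hf = univ.filter fun x => x ∈ H := ⟨_, rfl⟩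
  have mH : ∀ x, x ∈ Hf ↔ x ∈ H := by simp [hHf]
  have cH : Nat.card H = Hf.card := by
    rw [hHf, Nat.card_eq_fintype_card, Fintype.card_subtype]
  rw [cH] at hc
  have h0 : (0 : F) ∈ Hf := (mH _).2 H.zero_mem
  have hT : ∀ s ∈ Hf, ∀ t ∈ Hf, s + t ∈ Hf := fun s hs t ht =>
    (mH _).2 (H.add_mem ((mH _).1 hs) ((mH _).1 ht))
  have nz : ∀ z : F, z ^ d = 1 → z ≠ 0 := by
    rintro z hz rfl; rw [zero_pow hd0.ne'] at hz; exact zero_ne_one hz
  have iH : Inv d Hf := fun z hz x hx => (mH _).2 (by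
    have : z * x ∈ (fun x => z * x) '' (H : Set F) := ⟨x, (mH _).1 hx, rfl⟩
    rwa [hH z hz] at this)
  obtain ⟨e, heα, he⟩ := pow_two h2 hq Hf h0 hT
  have hQ := card_pre h2 Hf h0 hT (univ.image (phi Hf)) Subset.rfl
  rw [filter_true_of_mem (fun x _ => mem_image_of_mem _ (mem_univ x)), card_univ, hq] at hQ
  have hpos : 0 < Hf.card := card_pos.2 ⟨0, h0⟩
  obtain ⟨j, hj, hdj⟩ : ∃ j, k = j * Hf.card ∧ (d ∣ j ∨ d ∣ j - 1) := by
    rcases hc with hc | hc
    · obtain ⟨m, hm⟩ := (Nat.modEq_zero_iff_dvd).1 hc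
      exact ⟨d * m, by rw [hm]; ring, Or.inl (dvd_mul_right _ _)⟩
    · have a1 : Hf.card ∣ k := (Nat.modEq_zero_iff_dvd).1
        ((hc.of_mul_left d).trans (Nat.modEq_zero_iff_dvd.2 dvd_rfl))
      obtain ⟨j, rfl⟩ := a1
      refine ⟨j, mul_comm _ _, Or.inr ?_⟩
      have a2 : Hf.card * j ≡ Hf.card * 1 [MOD Hf.card * d] := by
        rw [mul_one, mul_comm Hf.card d]; exact hc
      have a3 := Nat.ModEq.mul_left_cancel' hpos.ne' a2
      exact (Nat.modEq_iff_dvd' (Nat.pos_of_ne_zero (by rintro rfl; omega))).1 a3.symm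
  have hp2 : ∀ t, j ≠ 2 ^ t := fun t ht => hcon (t + e) (by rw [hj, ht, he, pow_add])
  have hj3 : 3 ≤ j := by
    have a0 : j ≠ 0 := by rintro rfl; omega
    have a1 := hp2 0
    have a2 := hp2 1
    omega
  obtain ⟨C, hC, hcj, hi, hg⟩ := core h2 hq ho hm (univ.image (phi Hf)) (by
      intro z hz w hw
      obtain ⟨x, -, rfl⟩ := mem_image.1 hw
      have hz' : (z ^ 2 ^ (α - e)) ^ d = 1 := by rw [← pow_mul, mul_comm, pow_mul, hz, one_pow]
      refine mem_image.2 ⟨z ^ 2 ^ (α - e) * x, mem_univ _, ?_⟩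
      rw [phi_mul Hf _ (nz _ hz') (iH _ hz'), he, ← pow_mul, ← pow_add, Nat.sub_add_cancel heα,
        ← hq, FiniteField.pow_card])
    (mem_image.2 ⟨0, mem_univ _, (phi_zero _ _).2 h0⟩) (by
      intro s hs t ht
      obtain ⟨x, -, rfl⟩ := mem_image.1 hs
      obtain ⟨y, -, rfl⟩ := mem_image.1 ht
      exact mem_image.2 ⟨x + y, mem_univ _, phi_add Hf h0 hT x y⟩) j hj3 (by
      apply Nat.le_of_mul_le_mul_right _ hpos
      rw [← hQ, mul_assoc, ← hj]; exact hk) hp2 hdj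
  obtain ⟨B, hB⟩ : ∃ B : Finset F, B = univ.filter fun x => phi Hf x ∈ C := ⟨_, rfl⟩
  have mB : ∀ x, x ∈ B ↔ phi Hf x ∈ C := by simp [hB]
  have hne : {B : Finset F | B.card = k ∧ stab B = S d H}.Nonempty := by
    refine ⟨B, by rw [hB, card_pre h2 Hf h0 hT C hC, hcj, hj], ?_⟩
    ext σ
    constructor
    · rintro ⟨⟨a, b, ha, rfl⟩, hσ⟩
      have s1 : ∀ x ∈ B, a * x + b ∈ B := fun x hx => by
        rw [← hσ]; exact mem_image_of_mem _ hx
      have s2 : ∀ h ∈ Hf, a * h ∈ Hf := by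
        intro h hh
        refine (phi_zero _ _).1 (hg 1 (phi Hf (a * h)) one_ne_zero fun w hw => ?_).2
        obtain ⟨x, -, rfl⟩ := mem_image.1 (hC hw)
        have hx := (mB x).2 hw
        rw [← hσ] at hx
        obtain ⟨u, hu, rfl⟩ := mem_image.1 hx
        rw [one_mul, ← phi_add Hf h0 hT, ← mB,
          show a * u + b + a * h = a * (h + u) + b by ring]
        exact s1 _ (by rw [mB, phi_shift Hf hT u h hh, ← mB]; exact hu)
      obtain ⟨s3, s4⟩ := hg (a ^ Hf.card) (phi Hf b) (pow_ne_zero _ ha) (fun w hw => by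
        obtain ⟨x, -, rfl⟩ := mem_image.1 (hC hw)
        rw [← phi_mul Hf a ha s2, ← phi_add Hf h0 hT, ← mB]
        exact s1 x ((mB x).2 hw))
      refine ⟨a, b, ?_, (mH _).1 ((phi_zero _ _).1 s4), rfl⟩
      rw [← pow_mul, mul_comm, pow_mul, he] at s3
      have s5 := sub_pow_char_pow (p := 2) (a ^ d) 1 e
      rw [s3, one_pow, sub_self] at s5
      exact sub_eq_zero.1 (pow_eq_zero_iff (by positivity) |>.1 s5)
    · rintro ⟨z, h, hz, hh, rfl⟩
      refine ⟨⟨z, h, nz z hz, rfl⟩, sum_inv B z h (nz z hz) fun x hx => ?_⟩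
      rw [mB, add_comm, phi_shift Hf hT _ h ((mH _).2 hh), phi_mul Hf z (nz z hz) (iH z hz)]
      exact hi _ (by rw [← pow_mul, mul_comm, pow_mul, hz, one_pow]) _ ((mB x).1 hx)
  exact hne.ne_empty ((Set.ncard_eq_zero (Set.toFinite _)).1 hN)

end Pool.Agent.Results.MP_3242d6_co.Full
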